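import Mathlib
import Pool.Agent.NH36.VH.Main

/-!
# The variational Hodge conjecture for abelian schemes: codimension two and split Weil classes suffice

Let `𝒜` be a system of classes on complex abelian varieties which is stable under linear
combinations, cup products, pull-backs along homomorphisms and push-forwards along projections, and
which contains the Hodge classes of degree two, for instance the system of the algebraic classes
(Lefschetz). Two abelian varieties `X` and `X'` with the same rational homology and a common
polarization are fibres of the family of all these abelian varieties. The *variational principle*
in degree `m` says: if a class `f` of degree `m` is a Hodge class on `X` and on `X'` and belongs to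
`𝒜` on `X`, then it belongs to `𝒜` on `X'`.

For the algebraic classes and `m = 2 p` this follows from the variational Hodge conjecture for
abelian schemes and classes of codimension `p`. Indeed, the set of all complex structures `J` on
`H_1 ⊗ ℝ` for which the given form is a polarization and `f` is a Hodge class is connected (if `J`
and `J'` belong to it then so does `J (- J J') ^ t` for `0 ≤ t ≤ 1`), it is a Hermitian symmetric
domain, and its quotient by a small arithmetic group is quasi-projective and carries an abelian
scheme on which `f` is a global section (Baily-Borel, Borel). Conversely the principle in degree `2 p`
contains the variational Hodge conjecture for abelian schemes and classes of codimension `p`, since a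
global section which is algebraic on one fibre is a Hodge class on all fibres.

**Theorem.** The variational principle in all degrees is equivalent to the variational principle for
the classes of degree four (codimension two) and for the split Weil classes, and to the statement
that `𝒜` contains all Hodge classes on all abelian varieties.

It was known that the variational Hodge conjecture for all abelian schemes implies the Hodge
conjecture for abelian varieties (Abdulali, André, after Deligne). The new point is that two cases
are enough: codimension two, and families of abelian varieties of split Weil type with the Weil
classes.

Outline of the proof. (1) Let `f` be a Hodge class on `X`, `J` the complex structure. There is a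
rational endomorphism `z` of `H_1(X)`, skew for the polarization, which kills `f` and is close to `J`
(the solutions of a rational system of linear equations are dense in the real solutions). Its
eigenvalues are purely imaginary and close to `± i`; let `J'` be its polar part. As `z` kills `f` the
sums of eigenvalues occurring in `f` are zero, so the sums of their signs are small integers, hence
zero: `J'` kills `f` as well. So `f` is a Hodge class for `J'`, which belongs to an abelian variety of
CM type (`NH36/VH/C1.lean`, ..., `C5.lean`). (2) A Hodge class of degree four on an abelian variety of
CM type is a sum of classes `Tr (c det (P_i (v_j)))`, where `P_1, ..., P_4` are eigenfunctionals with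
values in a CM field `K`, and these are pull-backs of classes on an abelian variety with `H_1 = K ^ 4`
and a polarization given by a diagonal Hermitian form; for a suitable choice of two of the four
coefficients this form is hyperbolic, so they are split Weil classes (`B0.lean`, ..., `B7.lean`).
(3) A family of split Weil type has a member which is a power of the elliptic curve with
multiplication by `i`, where the Weil classes are combinations of products of classes of degree two
(`W1a.lean`, ..., `W6.lean`). So the two variational principles give the split Weil classes and the
Hodge classes of degree four, and these generate all Hodge classes on abelian varieties, by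
`Pool.Agent.Results.MP_802513_ag.CodimensionTwoAndSplitWeil`.
-/

namespace Pool.Agent.Results.MP_e9c0f3_ag.AbelianSchemes

open Pool.Agent.NH32 Pool.Agent.Y90 Pool.Agent.NH36.VH
open Pool.Agent.H204R3.CM (IsHodge)

/-- **The theorem.** For a system of classes which contains the Hodge classes of degree two the
following are equivalent: the variational principle in all degrees; the variational principle in
degree four and for split Weil classes; all Hodge classes on all complex abelian varieties belong to
the system. -/
theorem result (𝒜 : Sys)
    (h2 : ∀ (X : AV) (f : X.H [⋀^Fin 2]→ₗ[ℚ] ℚ), IsHodge X.per f → 𝒜.A X (Fin 2) f) :
    ((∀ m : ℕ, Variational 𝒜 m) ↔ Variational 𝒜 4 ∧ VariationalSplitWeil 𝒜) ∧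
      ((∀ m : ℕ, Variational 𝒜 m) ↔ ∀ A : AV, 𝒜.AllHodge A) := by
  have h1 : (∀ m : ℕ, Variational 𝒜 m) → Variational 𝒜 4 ∧ VariationalSplitWeil 𝒜 := by
    intro h
    refine ⟨h 4, ?_⟩
    rintro X X' e n w ⟨hw, hw', K, _, _, ρ, c, E, W, -, -, -, -, -, -, -, hE, hE', -⟩ hA
    exact h n X X' e E hE hE' w hw hw' hA
  have h3 : Variational 𝒜 4 ∧ VariationalSplitWeil 𝒜 → ∀ A : AV, 𝒜.AllHodge A :=
    fun h => (main 𝒜).mpr ⟨h2, h.1, h.2⟩
  have h4 : (∀ A : AV, 𝒜.AllHodge A) → ∀ m : ℕ, Variational 𝒜 m :=
    fun h m X X' e E _ _ f hf _ _ => h X' (Fin m) f hf
  exact ⟨⟨h1, fun h => h4 (h3 h)⟩, ⟨fun h => h3 (h1 h), h4⟩⟩

end Pool.Agent.Results.MP_e9c0f3_ag.AbelianSchemes
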