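import Mathlib
import Pool.Agent.NH36.VC.Main

/-!
# Split Weil families in codimension two and abelian varieties of CM type

Let `𝒜` be a system of classes on complex abelian varieties which is stable under linear
combinations, cup products, pull-backs along homomorphisms and push-forwards along projections, and
which contains the Hodge classes of degree two, for instance the system of the algebraic classes
(Lefschetz).

**Theorem.** Assume that `𝒜` satisfies the variational principle for the split Weil classes of degree
four: if `X` and `X'` are two members of a family of split Weil type (abelian varieties with the same
rational homology `H_1`, a common polarization, and an action of a CM field `K` on both for which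
`H_1` is a vector space of dimension four over `K` with a hyperbolic Hermitian form), and if the Weil
class `w` in `⋀_K^4 H^1` belongs to `𝒜` on `X`, then it belongs to `𝒜` on `X'`. Then `𝒜` contains all
Hodge classes, **of all degrees**, on all abelian varieties of CM type.

For the algebraic classes the assumption is a case of the variational Hodge conjecture for abelian
schemes and classes of codimension two (see the file `AbelianSchemes.lean` in this folder). So the
Hodge conjecture for all abelian varieties of CM type follows from the variational Hodge conjecture
for one kind of families and in codimension two only. By a theorem of Milne the Hodge conjecture for
abelian varieties of CM type implies the Tate conjecture for all abelian varieties over finite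
fields.

Outline of the proof. A family of split Weil type has a member which is a power of the elliptic curve
with multiplication by `i`, where the Weil classes are combinations of products of classes of degree
two; so `𝒜` contains all split Weil classes of degree four. The Hodge classes of degree four on
abelian varieties of CM type are sums of pull-backs of split Weil classes of degree four: the
diagonal Hermitian forms of rank four which occur become hyperbolic after a suitable choice of two of
the coefficients (`NH36/VH/B2.lean`, `B3.lean`). Finally all Hodge classes on abelian varieties of CM
type come from those of degree four on an auxiliary abelian variety of CM type which contains one
line for each CM type of a large field (in the style of a theorem of Hazama; here by the results in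
`NH32` for the case where all modules are lines).
-/

namespace Pool.Agent.Results.MP_e9c0f3_ag.CMType

open Pool.Agent.NH32 Pool.Agent.Y90 Pool.Agent.NH36.VH
open Pool.Agent.H204R3.CM (IsHodge)

/-- **The theorem.** The variational principle for split Weil classes of degree four implies that all
Hodge classes on all abelian varieties of CM type belong to the system. -/
theorem result (𝒜 : Sys)
    (h2 : ∀ (X : AV) (f : X.H [⋀^Fin 2]→ₗ[ℚ] ℚ), IsHodge X.per f → 𝒜.A X (Fin 2) f)
    (hV : VariationalSplitWeilFour 𝒜) (A : AV) (hA : IsCMType A) : 𝒜.AllHodge A :=
  (Pool.Agent.NH36.VC.main 𝒜 h2).2 hV A hA

end Pool.Agent.Results.MP_e9c0f3_ag.CMType
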