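import Mathlib
import Pool.Agent.NH36.Vhc.Main

/-!
# The variational Hodge conjecture for combinations of many linear cycles on hypersurfaces

Let `X` be a smooth hypersurface of degree `d` in the projective space of dimension `2 r - 1` over
`ℂ` with the equation `F₀ = 0`, and let `Z₁, …, Z_k` be linear subspaces of projective dimension
`r - 1` contained in `X`, which is half of the dimension of `X`. Let `F = F₀ + t F₁ + t² F₂ + …` be a
(formal) deformation of the equation. We use the description of the periods of `X` by Griffiths:
for a class `α` in the cohomology of `X` of degree `2 r - 2` let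

  `Λ_α (P) = (-1)^m (m - 1)! ∫ P Ω / F ^ m` for a form `P` of degree `m d - 2 r`,

where the integral is over a tube over a cycle which is dual to the flat extension of `α`, and
`Λ_α (P) = 0` for forms `P` of other degrees. (Formally `Λ_α (P)` is the integral of `P exp (F)`.) Then
`Λ = Λ_α` has the following properties; `R` denotes the ring of formal power series in `t`.

* `Λ` is a linear functional on the polynomials over `R` with values in `R` and
  `Λ (∂ A / ∂ x_s + A ∂ F / ∂ x_s) = 0` for all polynomials `A` (exact forms have integral zero), and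
  `d/dt Λ (P) = Λ (∂ P / ∂ t + P ∂ F / ∂ t)` (`α` is flat for the Gauss-Manin connection). Such
  functionals are called flat here (`IsFlat`).
* The flat extension of `α` is a Hodge class, in the fibre over the ring of truncated power series
  `R / t ^ N`, if and only if `Λ (P)` is divisible by `t ^ N` for all forms `P` of degree
  `< r (d - 2)`: these are the forms with `m ≤ r - 1`, which give the part of the Hodge filtration
  orthogonal to the classes of type `(r - 1, r - 1)`. We allow `N = ∞`.
* Let `α` be the class of a linear subspace `Z`, and let `P` vanish to order `a` along `Z`. Then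
  `Λ (P) = 0` at `t = 0` if `P` is of degree `< r (d - 2) + a d`, that is, if `a ≥ m - r + 1`:
  replace the equations `x_j` of `Z` by `ε x_j`, the integral is multiplied by `ε ^ (a + r - m)` and for
  `ε → 0` the hypersurface tends to one which is smooth along `Z`. As the primitive part of `α` is
  not zero, `Λ (P) ≠ 0` at `t = 0` for some form `P` of degree `r (d - 2)` (that is, `m = r`). These
  properties (`IsClass`) characterize the nonzero multiples of the primitive part of `α` at `t = 0`.

**Theorem.** Suppose that for all `i ≠ j`, if the intersection `Z i ∩ Z j` has codimension `e` in `Z i` and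
`n` is the number of indices `j' ≠ i` for which the codimension of `Z i ∩ Z j'` in `Z i` is at
most `e`, then `n + 2 ≤ (e - 1) (d - 2)`. (For instance: the codimensions are all at least `e` and
`k < (e - 1) (d - 2)`.) Let `c i` be nonzero numbers. If the flat extension of the class
`∑ c i [Z i]` along `F` is a Hodge class modulo `t ^ N`, where `N ≤ ∞`, then each of the
subspaces `Z i` extends to a linear subspace of the deformation, modulo `t ^ N`, and the flat
extension of each of the classes `[Z i]` is a Hodge class modulo `t ^ N`.

So the Hodge locus of the class `∑ c i [Z i]` (in the space of all hypersurfaces, at `F₀`) is the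
intersection of the loci where the `Z i` deform, also infinitesimally. In particular the
variational Hodge conjecture holds for all combinations of `Z₁, …, Z_k` and of the power of
the hyperplane class: if a global section of the local system of the cohomology of a family of
smooth hypersurfaces over `S` has such a value at a point `0` then for every curve through `0` in
`S` the subspaces `Z i` deform along the curve (the scheme of linear subspaces of the fibres is
proper over the curve), and so the section is algebraic at all points of `S`. This was known for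
one linear (or complete intersection) cycle (Bloch, Dan, Kloosterman, Villaflor Loyola), and for two
linear cycles (Movasati, Villaflor Loyola), where the condition is the same as here; for classes of
a bounded type on hypersurfaces of very large degree it follows from a theorem of Otwinowska.

Proof. If `Z i` is extended modulo `t ^ (m + 1)` to a family of linear subspaces `M y`, then the functional
`Λ i` vanishes modulo `t ^ (m + 1)` on all polynomials which vanish to order `a` on this family and
are of degree `< r (d - 2) + a d`; this follows by induction from a formula for `d/dt Λ (P)` with a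
derivation which preserves the ideal of the family (`NH36/Vhc/Flat.lean`, `NH36/Vhc/Hodge.lean`).
The coefficient of `t ^ (m + 1)` of `Λ i (P)` is `λ i (P h i)` for `P` of degree `r (d - 2) - d`, where
`t ^ (m + 1) h i + …` is the restriction of `F` to the family. The functional `λ i` only depends on the
restriction to `Z i`, where it vanishes on the ideal `I i` generated by the partial derivatives of `F₀`.
By Macaulay's theorem and by the condition on the intersections, every form of degree
`r (d - 2) - d` on `Z i` is congruent modulo `I i` to the restriction of a form `P` which vanishes on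
the other `Z j` (`NH36/Vhc/Sect.lean`). So `λ i (b h i) = 0` for all forms `b` on `Z i`, and `h i` is in
`I i` as complete intersections of dimension zero are Gorenstein. Then `Z i` can be extended
modulo `t ^ (m + 2)` (`NH36/Vhc/Step.lean`, `NH36/Vhc/Lim.lean`, `NH36/Vhc/Main.lean`).
-/

set_option autoImplicit false

open MvPolynomial

namespace Pool.Agent.Results.MP_e9c0f3_ag.LinearCycles

/-- The coefficientwise derivative with respect to the parameter of a polynomial with coefficients
in the ring of power series. -/
noncomputable def dt {K σ : Type} [Field K] (P : MvPolynomial σ (PowerSeries K)) :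
    MvPolynomial σ (PowerSeries K) :=
  ∑ m ∈ P.support, monomial m (PowerSeries.derivative K (P.coeff m))

/-- Flat functionals: `Λ (∂ A / ∂ x_s + A ∂ F / ∂ x_s) = 0` and
`d/dt Λ (P) = Λ (∂ P / ∂ t + P ∂ F / ∂ t)`. -/
structure IsFlat {K σ : Type} [Field K] (F : MvPolynomial σ (PowerSeries K))
    (Λ : MvPolynomial σ (PowerSeries K) →ₗ[PowerSeries K] PowerSeries K) : Prop where
  exact : ∀ (s : σ) (A : MvPolynomial σ (PowerSeries K)), Λ (pderiv s A + A * pderiv s F) = 0
  flat : ∀ P : MvPolynomial σ (PowerSeries K),
    PowerSeries.derivative K (Λ P) = Λ (dt P + P * dt F)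

/-- The value `Λ₀ (P)` at `t = 0` for a polynomial `P` over the field. -/
noncomputable def atZero {K σ : Type} [Field K]
    (Λ : MvPolynomial σ (PowerSeries K) →ₗ[PowerSeries K] PowerSeries K)
    (P : MvPolynomial σ K) : K :=
  PowerSeries.constantCoeff (Λ (map PowerSeries.C P))

/-- The ideal of a linear subspace, generated by the linear forms which vanish on it. -/
noncomputable def idealOf {K σ : Type} [Field K] (Z : Submodule K (σ → K)) :
    Ideal (MvPolynomial σ K) :=
  Ideal.span {l | l.IsHomogeneous 1 ∧ ∀ z ∈ Z, eval z l = 0}

/-- At `t = 0` the functional `Λ` is a nonzero multiple of the functional given by the class of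
the linear subspace `Z`: it vanishes on the forms of degree `< r (d - 2) + d a` which vanish to
order `a` on `Z`, and it does not vanish on the forms of degree `r (d - 2)`. -/
structure IsClass {K σ : Type} [Field K] (d r : ℕ) (Z : Submodule K (σ → K))
    (Λ : MvPolynomial σ (PowerSeries K) →ₗ[PowerSeries K] PowerSeries K) : Prop where
  vanish : ∀ (a n : ℕ) (P : MvPolynomial σ K), P ∈ idealOf Z ^ a → P.IsHomogeneous n →
    n < r * (d - 2) + d * a → atZero Λ P = 0
  ne_zero : ∃ P : MvPolynomial σ K, P.IsHomogeneous (r * (d - 2)) ∧ atZero Λ P ≠ 0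

theorem result {K : Type} [Field K] [IsAlgClosed K] [CharZero K] {r d k : ℕ} (hd : 2 ≤ d)
    -- a family of hypersurfaces over the ring of power series, with smooth special fibre
    (F : MvPolynomial (Fin (2 * r)) (PowerSeries K)) (hF : F.IsHomogeneous d)
    (smooth : ∀ x : Fin (2 * r) → K,
      (∀ s, eval x (pderiv s (map PowerSeries.constantCoeff F)) = 0) → x = 0)
    -- linear subspaces of the special fibre
    (Z : Fin k → Submodule K (Fin (2 * r) → K)) (hZ : ∀ i, Module.finrank K (Z i) = r)
    (hFZ : ∀ i, ∀ z ∈ Z i, eval z (map PowerSeries.constantCoeff F) = 0)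
    -- the intersections are small
    (hint : ∀ i j, j ≠ i →
      2 + (Finset.univ.filter fun j' => j' ≠ i ∧
        Module.finrank K (Z i ⊓ Z j : Submodule K (Fin (2 * r) → K)) ≤
          Module.finrank K (Z i ⊓ Z j' : Submodule K (Fin (2 * r) → K))).card ≤
      (r - Module.finrank K (Z i ⊓ Z j : Submodule K (Fin (2 * r) → K)) - 1) * (d - 2))
    -- the flat extensions of the classes of the subspaces
    (Λ : Fin k → MvPolynomial (Fin (2 * r)) (PowerSeries K) →ₗ[PowerSeries K] PowerSeries K)
    (hflat : ∀ i, IsFlat F (Λ i)) (hclass : ∀ i, IsClass d r (Z i) (Λ i))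
    -- a combination with nonzero coefficients which is a Hodge class modulo `t ^ N`
    (c : Fin k → K) (hc : ∀ i, c i ≠ 0) (N : ℕ∞)
    (hodge : ∀ (n : ℕ) (P : MvPolynomial (Fin (2 * r)) (PowerSeries K)), P.IsHomogeneous n →
      n < r * (d - 2) → N ≤ (∑ i, PowerSeries.C (c i) * Λ i P).order) :
    ∀ i,
      -- the subspace `Z i` extends modulo `t ^ N`
      (∃ M : Matrix (Fin (2 * r)) (Fin r) (PowerSeries K),
        (∀ v, v ∈ Z i ↔ ∃ y, (M.map PowerSeries.constantCoeff).mulVec y = v) ∧
        ∀ m, N ≤ (coeff m (aeval (fun s => ∑ t, C (M s t) * X t) F :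
          MvPolynomial (Fin r) (PowerSeries K))).order) ∧
      -- the class of `Z i` is a Hodge class modulo `t ^ N`
      ∀ (n : ℕ) (P : MvPolynomial (Fin (2 * r)) (PowerSeries K)), P.IsHomogeneous n →
        n < r * (d - 2) → N ≤ (Λ i P).order := by
  classical
  have hflat' : ∀ i, NH36.Vhc.IsFlat F (Λ i) := fun i => ⟨(hflat i).exact, (hflat i).flat⟩
  have hk : ∀ i, NH36.Vhc.Kills d (r * (d - 2)) (NH36.Vhc.linIdeal (Z i)) (Λ i) :=
    fun i => (hclass i).vanish
  have hne : ∀ i, ∃ P : MvPolynomial (Fin (2 * r)) K, P.IsHomogeneous (r * (d - 2)) ∧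
    PowerSeries.constantCoeff (Λ i (map PowerSeries.C P)) ≠ 0 := fun i => (hclass i).ne_zero
  have hm : ∀ i, ∃ (Φ : Matrix (Fin (2 * r)) (Fin r) K) (E : Matrix (Fin r) (Fin (2 * r)) K),
      E * Φ = 1 ∧ ∀ v, v ∈ Z i ↔ ∃ z, Φ.mulVec z = v := by
    intro i
    have h0 := NH36.Vhc.exists_mats (Z i)
    rw [hZ i] at h0
    exact h0
  choose Φ0 E0 hE hΦ using hm
  have hw : ∀ i j, j ≠ i → 2 + ((Finset.univ.erase i).filter fun j' =>
      Module.finrank K (Z i ⊓ Z j : Submodule K (Fin (2 * r) → K)) ≤
        Module.finrank K (Z i ⊓ Z j' : Submodule K (Fin (2 * r) → K))).card ≤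
    (r - 1 - Module.finrank K (Z i ⊓ Z j : Submodule K (Fin (2 * r) → K))) * (d - 2) := by
    intro i j hij
    have h1 := hint i j hij
    have h2 : (Finset.univ.erase i).filter (fun j' =>
        Module.finrank K (Z i ⊓ Z j : Submodule K (Fin (2 * r) → K)) ≤
          Module.finrank K (Z i ⊓ Z j' : Submodule K (Fin (2 * r) → K))) =
        Finset.univ.filter fun j' => j' ≠ i ∧
          Module.finrank K (Z i ⊓ Z j : Submodule K (Fin (2 * r) → K)) ≤
            Module.finrank K (Z i ⊓ Z j' : Submodule K (Fin (2 * r) → K)) := by
      ext x
      simp only [Finset.mem_filter, Finset.mem_erase, Finset.mem_univ, true_and, and_true]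
    rw [h2, Nat.sub_right_comm]
    exact h1
  have hr : r ≤ Fintype.card (Fin (2 * r)) := by rw [Fintype.card_fin]; omega
  have hord : ∀ (m : ℕ) (f : PowerSeries K), (m : ℕ∞) ≤ f.order ↔ PowerSeries.X ^ m ∣ f := by
    intro m f
    rw [PowerSeries.X_pow_dvd_iff]
    exact ⟨fun h n hn => PowerSeries.coeff_of_lt_order n (lt_of_lt_of_le (by exact_mod_cast hn) h),
      fun h => PowerSeries.nat_le_order f m h⟩
  intro i
  induction N using ENat.recTopCoe with
  | top =>
    simp only [top_le_iff, PowerSeries.order_eq_top] at hodge ⊢
    obtain ⟨Φ, h1, h2, h3⟩ := NH36.Vhc.all_orders hd hr hF smooth hE hΦ hFZ hflat' hk hne hc hw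
      hodge
    refine ⟨⟨Φ i, fun v => ?_, fun m => ?_⟩, h3 i⟩
    · rw [h1 i]; exact hΦ i v
    · have : (aeval (fun s => ∑ t, C (Φ i s t) * X t) F : MvPolynomial (Fin r) (PowerSeries K)) = 0 :=
        h2 i
      rw [this, coeff_zero]
  | coe N =>
    rcases N with _ | N
    · refine ⟨⟨(Φ0 i).map PowerSeries.C, fun v => ?_, fun m => by simp⟩, fun n P _ _ => by simp⟩
      have : ((Φ0 i).map PowerSeries.C).map PowerSeries.constantCoeff = Φ0 i := by
        rw [Matrix.map_map]
        have : (PowerSeries.constantCoeff ∘ PowerSeries.C : K → K) = id := by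
          funext x; exact PowerSeries.constantCoeff_C x
        rw [this, Matrix.map_id]
      rw [this]; exact hΦ i v
    · simp only [hord] at hodge ⊢
      obtain ⟨Φ, h1, h2⟩ := NH36.Vhc.finite_order hd hr hF smooth hE hΦ hFZ hflat' hk hne hc hw
        (N := N) hodge
      refine ⟨⟨Φ i, fun v => ?_, fun m => ?_⟩, fun n P hP hn => ?_⟩
      · rw [h1 i]; exact hΦ i v
      · have h3 := h2 i
        rw [C_dvd_iff_dvd_coeff] at h3
        exact h3 m
      · obtain ⟨g, hg⟩ := h2 i
        obtain ⟨E, hE1, hE2⟩ := NH36.Vhc.exists_left (Φ := Φ i) (E0 := E0 i) (by rw [h1 i, hE i])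
        have hM : (Φ i * E) * (Φ i * E) = Φ i * E := by
          rw [Matrix.mul_assoc, ← Matrix.mul_assoc E, hE1, Matrix.one_mul]
        refine NH36.Vhc.hodge_order (m := N) (G := NH36.Vhc.cmp E g) hM hF ?_ (hflat' i)
          (T := r * (d - 2)) ?_ (N + 1) le_rfl 0 n P (by simp) hP (by omega)
        · rw [← NH36.Vhc.cmp_cmp, hg, map_mul, NH36.Vhc.cmp_C]
        · intro a n P hP hPn hn
          refine hk i a n P (Ideal.pow_right_mono ?_ a hP) hPn hn
          rw [Matrix.map_mul, h1 i, hE2]
          exact NH36.Vhc.rowId_le_linIdeal (hE i) (hΦ i)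

end Pool.Agent.Results.MP_e9c0f3_ag.LinearCycles
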